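import Pool.Agent.Helper38.RE.Cx

/-! Project RE2 (MP_cc4a3b_co, extension to all k), piece RE2-BDL: statement and full proof.

Setting of RE/Cx.lean (`Cx F U D`, `T = tT`, `K = tK`, `T2 = tT2`, `Z = tZ`). Notation:
`k w = (N F w ∩ K).card`, `z w = (N F w ∩ Z).card ≤ k w`, `h = Z.card ≥ 2`, `p = (Z ∩ D).card`,
`d = D.card ≥ 3`. `BD` = the `v ∈ T2` without neighbour in `Z` (so both neighbours are in `K \ Z`).
For `w ∈ K \ Z` let `t w = (N F w ∩ T2).card`, `dg w = k w + t w` (`Cx.dg_notZ`), and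
`bd w = (N F w ∩ BD).card ≤ t w`, `g w = dg w + z w - 3 - 2 [w ∈ D]`. Claim:
`∑ w ∈ K \ Z, g w ≥ BD.card + (h - 2) * (d - p)`.

Facts. (1) `z ∈ Z`, `y ∈ D`, `y ≠ z`: adjacent (`Cx.Z_adj`); so `z w = h` for `w ∈ D \ Z`.
(2) `v ∈ T2`, `N v = {w, b}`, `y ∈ D`: a common neighbour of `v` and `y` is `w` or `b`. So each
`y ∈ D` is adjacent to `w` or to `b`, and if `w ∈ D` then `w`, `b` are adjacent.
(3) `w ∈ K \ Z \ D` and `y ∈ D`: there is a common neighbour `x`; either `x ∈ K`, or `x ∈ T2` and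
`N x = {w, y}`.

Call `w ∈ K \ Z` low if `w ∉ D` and `k w + z w ≤ 2`, otherwise strong. Strong elements satisfy
`g w ≥ bd w + (h - 2) [w ∈ D]`: for `w ∉ D` clear, `g w = k w + t w + z w - 3`. For `w ∈ D`:
`g w = dg w + h - 5`; if `bd w = 0` use `dg w ≥ 3`; otherwise take a BD neighbour `v`,
`N v = {w, b}`, `b ∉ Z`, `b` adjacent to `w` by (2), so `k w ≥ h + 1` and
`g w ≥ (h + 1 + bd w) + h - 5 ≥ bd w + h - 2`. Low elements satisfy `g w ≥ 0`.

If every `v ∈ BD` has a strong neighbour, then `BD.card ≤ ∑ bd w` over the strong `w`, done.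

Otherwise let `LL` be the set of the `v ∈ BD` with two low neighbours, `ll w = (N w ∩ LL).card`, `L1`
the set of the low `w` with `ll w ≥ 1`. For `v ∈ LL`, `N v = {w, b}`, (2) gives
`d ≤ (N w ∩ D).card + (N b ∩ D).card ≤ k w + k b ≤ 4`. So `d = 3` or `d = 4`. A low `w` adjacent to
an element of `Z` has `k w = z w = 1`. So in `N v = {w, b}`: an element `y ∈ Z ∩ D` is adjacent to
`w` or `b`, which then has no other neighbour in `K`.
Doubling everything: `2 * BD.card ≤ ∑ strong 2 * bd w + ∑ w ∈ L1, ll w`. For `y ∈ D \ Z`: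
`2 (g y - bd y - (h - 2)) = 2 (dg y - 3 - bd y) ≥ 2 (k y - 3)`, and
`k y ≥ h + (N y ∩ L1).card + e y`, `e y = (N y ∩ (K \ Z \ L1)).card`. For `w ∈ L1`:
`2 g w - ll w = 2 (k w + z w - 3) + 2 nb w + ll w`, `nb w = t w - ll w`. The other elements
contribute `≥ 0`. So
`2 * (∑ g - BD.card - (h - 2) (d - p)) ≥ 2 (h - 3) (d - p) + 2 ∑ y ∈ D \ Z, e y
   + ∑ w ∈ L1, q w`, `q w = 2 (N w ∩ (D \ Z)).card + 2 (k w + z w - 3) + 2 nb w + ll w`.
 d = 4: for an LL vertex both ends have two neighbours in `K`, both in `D`, so `z = 0`, and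
 `Z ∩ D = ∅` (an element of `Z ∩ D` adjacent to an end would force `k = 1`). So `p = 0`, every
 `w ∈ L1` has `q w = 2 + 2 nb w + ll w ≥ 3`, `L1.card ≥ 2`. If `h ≥ 3` done. `h = 2`: the total is
 `≥ -8 + 6 + 2 (∑ e + ∑ nb)`. Take `w ∈ L1`, `N w ∩ K = {y1, y2}`, `D = {y1, y2, y3, y4}`, and (3)
 for `w`, `y3`: if `x ∈ K` then `x ∈ {y1, y2}` is adjacent to `y3`, so `e x ≥ 1`; if `x ∈ T2` then
 `nb w ≥ 1`. So the total is `≥ 0`.
 d = 3, p = 0: for an LL vertex `N v = {w, b}` one of the ends, say `b`, has two neighbours in `D`,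
 the other one at least one. No element of `L1` is adjacent to `Z` (an element of `Z \ D` as only
 neighbour in `K` means no neighbour in `D`, but the partner covers at most two elements of `D`). For
 `w ∈ L1` with `k w = 2`: `q w ≥ 2 * 1 - 2 + 2 nb w + ll w ≥ 1`; with `k w = 1`: `q w = 2 - 4 + 2 nb w
 + ll w ≥ 0` as `1 + nb w + ll w = dg w ≥ 3`. For `b`: `q b = 4 - 2 + 2 nb b + ll b ≥ 3`. If `h ≥ 3`
 done. If `h = 2`: total `≥ -6 + q b + 2 ∑ e`; (3) for `b` and the third element `y1` of `D`: if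
 `x ∈ K` then `x ∈ D`, `x` and `y1` are adjacent, so `e x ≥ 1` and `e y1 ≥ 1`, total
 `≥ -6 + 3 + 4`; if `x ∈ T2` then `nb b ≥ 1`, `q b ≥ 5`, total `≥ -1`, and the total is even (it is
 twice an integer), so `≥ 0` (do this parity argument at the end: `2 A ≥ -1` gives `A ≥ 0`).
 d = 3, p = 1: `Z ∩ D = {y1}`, `D \ Z = {y2, y3}`. An end adjacent to `y1` has `k = z = 1` and
 no other neighbour in `K`; so the other end is adjacent to `y2, y3`, with `k = 2`, `z = 0`. So the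
 elements of `L1` have either `k = z = 1` and `q w = 2 (1 + 1 - 3) + 2 nb w + ll w ≥ 0`
 (`nb w + ll w ≥ 2`), or `N w ∩ K = {y2, y3}` and `q w = 4 - 2 + 2 nb w + ll w ≥ 3`, with at least
 one of the second kind. Total `≥ 4 (h - 3) + 3 ≥ -1`, and it is even.
 d = 3, p ≥ 2, or d = 4, p ≥ 1: no LL vertex (an end adjacent to an element of `Z ∩ D` covers one
 element of `D`; so two elements of `Z ∩ D` and the third element cannot be covered). -/

set_option autoImplicit false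

namespace Pool.Agent.Helper38.RE.Spec

open Finset Pool.Agent.Helper38.RE

variable {V : Type*} [Fintype V] [DecidableEq V]

theorem bdl {F : SimpleGraph V} [DecidableRel F.Adj] {U D : Finset V} (C : Cx F U D)
    (hd : 3 ≤ D.card) (hh : 2 ≤ (tZ F U D).card) :
    (((tT2 F U D).filter fun v => N F v ∩ tZ F U D = ∅).card : ℤ)
      + ((tZ F U D).card - 2 : ℤ) * ((D \ tZ F U D).card : ℤ)
      ≤ ∑ w ∈ tK F U D \ tZ F U D,
        ((dg F w : ℤ) + ((N F w ∩ tZ F U D).card : ℤ) - 3 - if w ∈ D then 2 else 0) := by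
  sorry

end Pool.Agent.Helper38.RE.Spec
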