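import Pool.Agent.Helper38.RE.Roman

/-! Project RE (MP_cc4a3b_co): the extremal graph `cG m n`, statements (definitions in
RE/Roman.lean). Write `c = n - m`. -/

set_option autoImplicit false

namespace Pool.Agent.Helper38.RE.Spec

open Finset Pool.Agent.Helper38.RE

/-- RE-C1 (file C1.lean). Any two core vertices `m + t`, `m + t'` are adjacent or have a common
core neighbour (each misses at most `3` core vertices, itself included, and `c` is large; e.g.
one of the core vertices with `t = 2, 4, 6, 8, 10`), and the outside vertex `i < m` is adjacent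
to the core vertex with `t = 2 * i`. -/
theorem cG_connected {m n : ℕ} (hm : 2 ≤ m) (hn : 4 * m + 20 ≤ n) : (cG m n).Connected := by
  sorry

/-- RE-C1 (file C1.lean). Proof: for a core vertex `m + t` with exactly one non neighbour
`m + t'` in the core (all but `t = 0` with `c` odd), `f = 2` at `m + t`, `1` at `m + t'` and at the
outside vertices `≠ cls t`, and `0` at all other vertices, is a Roman dominating function of
weight `2 + 1 + (m - 1)`. Use `t = 1, 3, 5, ...` to cover `t = 0, 2, 4, ..`, etc. An outside vertex
`i` is covered by `t = 1` if `i ≠ 0` and by `t = 3` if `i = 0`. -/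
theorem cG_rdf {m n : ℕ} (hm : 2 ≤ m) (hn : 4 * m + 20 ≤ n) (x : Fin n) :
    ∃ f, IsRDF (cG m n) f ∧ ∑ v, f v = m + 2 ∧ f x ≠ 0 := by
  sorry

/-- RE-C2 (file C2.lean). Proof: `∑ v, degree v` is the number of ordered adjacent pairs. Core
core: `c * c` pairs minus the non adjacent ones (`part` includes `t = t'`): at most
`2 * c + (c odd: 1 + ... )`; precisely, for `c` even the pairs with `t / 2 = t' / 2` are `2 * c`; for
`c` odd they are `2 * (c - 1) + 1` and there are two more, so `2 * c + 1` in all. Core outside:
`c` pairs in each direction. Outside outside: `2 * (m / 2)`. Sum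
`≥ c * c - 2 * c - 1 + 2 * c + 2 * (m / 2)`. -/
theorem cG_size {m n : ℕ} (hm : 2 ≤ m) (hn : 4 * m + 20 ≤ n) :
    (n - m) ^ 2 + 2 * (m / 2) ≤ 2 * (cG m n).edgeSet.ncard + 1 := by
  sorry

/-- RE-C3 (file C3.lean). Proof: let `f` be a Roman dominating function, `a` the number of the
outside vertices of value `2`, `b` the number of the core vertices of value `2`. A vertex which
is not of value `2` and has no neighbour of value `2` has value `1`; let `u` be the number of
these. The weight is `≥ 2 * a + 2 * b + u`.
 Case `b ≥ 2`: an outside vertex `i` can be dominated only by itself, its outside neighbour (the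
 pairs `{2 l, 2 l + 1}`), or a core vertex with `cls = i`; so at most `2 * a + b` outside vertices
 are dominated, `u ≥ m - 2 * a - b`, and `2 * a + 2 * b + u ≥ m + b ≥ m + 2`.
 Case `b = 1`, `m + t` the core vertex: let `t'` be a core vertex not adjacent to it (`t' = t ^^^ 1`,
 or `t' = 0` if `t = c - 1` is even); `cls t = cls t'`. If `m + t'` is not dominated, then
 `u ≥ (m - 2 * a - 1) + 1`. If it is dominated then the outside vertex `cls t` has value `2`, and
 the number of dominated outside vertices is `≤ 2 * a`, so `u ≥ m - 2 * a`. In both cases the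
 weight is `≥ m + 2`.
 Case `b = 0`: if `a = m`, the weight is `≥ 2 * m ≥ m + 2`. If not, there is an outside vertex `i`
 of value `≠ 2`, and the core vertices `t` with `cls t = i` are not dominated; there are at
 least `m + 2` of them (`t = 2 * (i + m * l)`, `l = 0, ..., m + 1`, and `t ≤ 2 * (m - 1 + m * (m + 1))`
 is `< c - 1`). -/
theorem cG_ge {m n : ℕ} (hm : 2 ≤ m) (hn : 2 * m * (m + 2) + m + 20 ≤ n) {f : Fin n → ℕ}
    (hf : IsRDF (cG m n) f) : m + 2 ≤ ∑ v, f v := by
  sorry

end Pool.Agent.Helper38.RE.Spec
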