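import Pool.Agent.Helper38.RE.Basic

/-! Project RE (MP_cc4a3b_co), piece RE-LemR: statements, with the full paper proof.

Write `c v = dg R v - 1 - 2 * [v ∈ D]`, so the claim is `∑ v ∈ U, c v ≥ -3` (resp. `≥ -1`).

(KI) For every `X ⊆ U`:
`∑ c ≥ ∑ v ∈ X, (N R v ∩ X).card - X.card - 2 * (D ∩ X).card
       + ∑ y ∈ D \ X, ((N R y ∩ X).card + dg R y - 3)`.
This is `acc` (file Basic.lean) and `dg R v ≥ 1` on `U \ X \ D`. Call `y ∈ D` cheap if
`dg R y = 2`. For `y ∈ D \ X` the last summand is `≥ 0` if `y` is not cheap or has a neighbour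
in `X`.

lemR. Case 1: there are cheap `y0, y2` with `grp y0 ≠ grp y2`. They have a common neighbour `a`.
 1a: `y0`, `y2` adjacent: `N y0 = {y2, a}`, `N y2 = {y0, a}`. Every `y ∈ D`, `y ≠ y0, y2, a` is
 adjacent to `a` (its group differs from `grp y0`, say; the common neighbour with `y0` is
 `y2` or `a`, and it is not `y2` as the neighbours of `y2` are `y0, a`). (KI) with `X = {a}`
 gives `∑ c ≥ -1 - 2 [a ∈ D]`.
 1b: not adjacent: `N y0 = {a, b}`, `N y2 = {a, b2}` (`b = b2` possible), `X = {a, b, b2}`.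
 `y0, y2 ∉ X` have `2` neighbours in `X`, and every other `y ∈ D` (also in `X`) has a neighbour
 in `X`. So `∑ c ≥ ∑ v ∈ X, (N v ∩ X).card - X.card - 2 * (D ∩ X).card + 2`, which is `≥ -3`
 (`X.card = 3`: if `(D ∩ X).card = 3` there are `≥ 2` edges in `X`, so the first sum is `≥ 4`;
 if `(D ∩ X).card = 2` it is `≥ 2`. `X.card = 2`: clear).
Case 2: all cheap elements of `D` are in the group `g0`. Take a maximal family
 `y_1, ..., y_t` of cheap elements with pairwise disjoint neighbourhoods, `X` the union of the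
 neighbourhoods, `X.card = 2 * t`. If `t = 0` there is no cheap element and (KI) with `X = ∅`
 gives `∑ c ≥ 0`. Let `t ≥ 1`. Every cheap `y` has a neighbour in `X`. Let `O` be the set of the
 elements of `D` outside of the group `g0`, `O.card ≥ 5`; they are not cheap, and each has a
 common neighbour with each `y_i`, so `≥ t` neighbours in `X`. In (KI): each `y ∈ O \ X`
 contributes `≥ t`, each `v ∈ O ∩ X` gives `≥ t` to the first sum, each `y_i ∉ X` contributes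
 `1` and each `y_i ∈ X` gives `2` to the first sum. So
 `∑ c ≥ t * O.card + t - 2 * t - 2 * (D ∩ X).card ≥ 5 * t + t - 2 * t - 4 * t = 0`.

lemR'. Case 2 is the same. In case 1, 1a is impossible by `hs`. 1b: `a ∉ D` by `hs` (it would be
 in both groups).
 If `b = b2`: `b ∉ D` in the same way, `X = {a, b}` gives `≥ -2 + 2`. Let `b ≠ b2`.
 If `b ∈ D` and `b2 ∈ D`: `X = {a}`, every cheap `y` is adjacent to `a`, so `≥ -1`. (Say
 `grp y ≠ grp y0`; the common neighbour with `y0` is `a` or `b`; `b ∈ D` adjacent to the cheap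
 `y0` and to the cheap `y` would give `grp y = grp b = grp y0`. Same if `grp y ≠ grp y2`.)
 If `b ∈ D`, `b2 ∉ D`: `X = {a, b2}`, `D ∩ X = ∅`, `y2` contributes `1`, all others `≥ 0` (same
 argument), so `≥ -2 + 1`. Symmetric if `b ∉ D`, `b2 ∈ D`.
 If `b, b2 ∉ D`: `X = {a, b, b2}`, `D ∩ X = ∅`, `y0, y2` contribute `1` each: `≥ -3 + 2`.
-/

set_option autoImplicit false

namespace Pool.Agent.Helper38.RE.Spec

open Finset Pool.Agent.Helper38.RE

variable {V : Type*} [Fintype V] [DecidableEq V]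

theorem lemR (R : SimpleGraph V) [DecidableRel R.Adj] {U D : Finset V} (hDU : D ⊆ U)
    (hU : ∀ v ∈ U, N R v ⊆ U) (h1 : ∀ v ∈ U, 1 ≤ dg R v) (h2 : ∀ v ∈ D, 2 ≤ dg R v)
    {ι : Type*} [DecidableEq ι] (grp : V → ι)
    (hc : ∀ u ∈ D, ∀ v ∈ D, grp u ≠ grp v → ∃ x, R.Adj u x ∧ R.Adj v x)
    (h5 : ∀ u ∈ D, 5 ≤ (D.filter fun v => grp v ≠ grp u).card) :
    -3 ≤ ∑ v ∈ U, ((dg R v : ℤ) - 1) - 2 * (D.card : ℤ) := by
  sorry

theorem lemR' (R : SimpleGraph V) [DecidableRel R.Adj] {U D : Finset V} (hDU : D ⊆ U)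
    (hU : ∀ v ∈ U, N R v ⊆ U) (h1 : ∀ v ∈ U, 1 ≤ dg R v) (h2 : ∀ v ∈ D, 2 ≤ dg R v)
    {ι : Type*} [DecidableEq ι] (grp : V → ι)
    (hc : ∀ u ∈ D, ∀ v ∈ D, grp u ≠ grp v → ∃ x, R.Adj u x ∧ R.Adj v x)
    (h5 : ∀ u ∈ D, 5 ≤ (D.filter fun v => grp v ≠ grp u).card)
    (hs : ∀ u ∈ D, dg R u = 2 → ∀ v ∈ D, R.Adj u v → grp v = grp u) :
    -1 ≤ ∑ v ∈ U, ((dg R v : ℤ) - 1) - 2 * (D.card : ℤ) := by
  sorry

end Pool.Agent.Helper38.RE.Spec
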