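import Pool.Agent.Helper38.RE.RSdef

/-! Project RE2 (MP_cc4a3b_co, extension to all k): two statements with the full paper proof.
`R` is a graph, `U` closed under neighbours, `D` a subset of `U`, every `v ∈ D` has a class `cls v`
and a group `grp v` (a group is one or two classes). `y ∈ D` is cheap if `dg R y = 2`.

(KI) is `lemR_ki` in RE/LemR.lean; `lemR_pair`, `lemR_one_le` there are useful too. In (KI) the
summand of `y ∈ D \ X` is `(N y ∩ X).card + dg y - 3`. The version with the vertices `v ∉ D` kept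
is `acc` (RE/Basic.lean): `∑ v ∈ U, (dg v - 1) - 2 * D.card
  = ∑ v ∈ X, ((N v ∩ X).card - 1 - 2 [v ∈ D]) + ∑ v ∈ U \ X, (dg v + (N v ∩ X).card - 1 - 2 [v ∈ D])`.

### rs_case1
`y0`, `y2` cheap, of different classes. O := the elements of `D` outside the group `g0`; they
are not cheap (`hg0`), so they have degree `≥ 3`; a cheap vertex is not adjacent to an element of O
(`hs`). Take `y' ∈ O` (`hO`).

1a. `y0`, `y2` adjacent, `a` a common neighbour: `N y0 = {y2, a}`, `N y2 = {y0, a}`. Every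
`y ∈ D`, `y ∉ {y0, y2, a}`, is adjacent to `a`: its class differs from `cls y0` or from `cls y2`;
say `cls y ≠ cls y0`; the common neighbour with `y0` is `y2` or `a`, not `y2` (its neighbours are
`y0, a`). Use `X = {a}`; all summands of `D \ {a}` are `≥ 1 + 2 - 3 = 0`, the sum over `X` is `-1` or
`-3` (if `a ∈ D`). If `a ∉ D`: `≥ -1`. If `a ∈ D`: `grp a = g0` (`hs`), the summand of `y'` is
`≥ 1 + 3 - 3 = 1`; `a` and `y'` have a common neighbour `m` (`cls a ≠ cls y'` because of the groups);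
`m` is not cheap (it is adjacent to `y'`; or `m ∉ D`), its summand is `≥ 1`: `1 + 3 - 3` if
`m ∈ D`, `2 + 1 - 1` if `m ∉ D` (it has the two neighbours `a, y'`). Sum `≥ -3 + 1 + 1`.

1b. `y0`, `y2` not adjacent: `N y0 = {a, b}`, `N y2 = {a, b2}`. `a, b, b2` are not in O. Let
`X = {a, b, b2}` (two or three elements). Every `y ∈ D`, `y ∉ {y0, y2}` (also in `X`), has a
neighbour in `N y0` or in `N y2`, hence in `X`; `y0` and `y2` (not in `X`) have summand `2 + 2 - 3 = 1`;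
`y'` has summand `(N y' ∩ X).card + dg y' - 3 ≥ 1`. Let `e` be the number of edges in `X`, so the
sum over `X` is `2 e - X.card - 2 (D ∩ X).card`.
 `b = b2`: `X.card = 2`; if `D ∩ X ≠ ∅` then `e = 1`. Sum `≥ 2 e - 2 - 2 (D ∩ X).card + 2 + 1 ≥ -1`.
 `b ≠ b2`: total `≥ 2 e - 3 - 2 (D ∩ X).card + 2 + (summand of y')`. If `(D ∩ X).card ≤ 1`: it is
 `≥ 0` (`e ≥ 1` if it is `1`). If `(D ∩ X).card = 3` then `e ≥ 2`, if it is `2` then `e ≥ 1`; so
 `2 e - 1 - 2 (D ∩ X).card ≥ -3`, and `≥ -1` if `(D ∩ X).card = 2` and `e ≥ 2`. So we need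
 (summand of y') + (another positive summand) `≥ 2` when `(D ∩ X).card = 3`, or when
 `(D ∩ X).card = 2` and `e = 1`. If `dg y' ≥ 4` or `(N y' ∩ X).card ≥ 2`, done. Otherwise
 `N y' ∩ X = {a}` (it meets `{a, b}` and `{a, b2}`). Choose `x ∈ D ∩ X` and a common neighbour `m` of
 `x` and `y'` with `m ∉ X`: if `a ∈ D` take `x = a` (then `m ≠ a`, so `m ∉ X`); if `a ∉ D` then
 `D ∩ X = {b, b2}`, `e = 1`, and `a` is not adjacent to one of `b, b2`, take this one as `x`. As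
 before `m` is not cheap, it is adjacent to `x ∈ X`, and its summand is `≥ 1` (`m ∈ D`: `1 + 3 - 3`;
 `m ∉ D`: `1 + 2 - 1`), `m ≠ y', y0, y2`.

### rs_case2
All cheap elements have class `c0` and group `g0`. `C` = set of the cheap elements; if `C = ∅`
then (KI) with `X = ∅` gives `≥ 0`. Let `y' ∈ D`, `grp y' ≠ g0`, `M = N y'`, `M.card ≥ 3`. No
cheap element is adjacent to `y'` (`hs`). Use `X = {y'}`: the total is
`-3 + ∑ v ∈ U \ {y'}, (dg v + [v ∈ M] - 1 - 2 [v ∈ D])`, the summands are `≥ 0` except for `v ∈ C`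
(`-1`). Put `C_m = N m ∩ C` for `m ∈ M`, `σ m = dg m - 2 [m ∈ D] - (C_m).card`, and
`C2 = {y ∈ C : N y ⊆ M}`. Each `y ∈ C` has a common neighbour with `y'`, so a neighbour in `M`;
`C.card ≤ ∑ m ∈ M, (C_m).card - C2.card`. So total `≥ -3 + ∑ m ∈ M, σ m + C2.card`.
 `m ∉ D`: `σ m ≥ 1` (`y'` and `C_m` are neighbours). `m ∈ D`, `grp m ≠ g0`: `C_m = ∅` by `hs`,
 `dg m ≥ 3`, `σ m ≥ 1`. `m ∈ D`, `grp m = g0`: `m` has a common neighbour `m^` with `y'`, `m^ ∈ M`,
 so `dg m ≥ 2 + (C_m).card`, `σ m ≥ 0`; `m` is not cheap; so if `C_m = ∅` then `σ m ≥ 1`; and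
 `σ m = 0` iff `N m = {y', m^} ∪ C_m`.
Suppose the total is `≤ -2`, so `∑ σ + C2.card ≤ 1`. Let
`Γ = {m ∈ M ∩ D : grp m = g0, cls m ≠ c0, σ m = 0}`, `P = {m ∈ M : not (m ∈ D, cls m = c0)}`. `hP`
(with a cheap `y`) gives `P.card ≥ 2`; the elements of `P \ Γ` have `σ ≥ 1`; so `(P \ Γ).card ≤ 1`,
`Γ ≠ ∅`.
 (Γ2) `m1 ∈ Γ`, `x ∈ C_{m1}`, `N x = {m1, x'}`: the common neighbour of `x` and `m1` (different
 classes) is `x'`, so `x' ∈ N m1`, `x' ≠ y'`, `x' ∈ {m1^} ∪ C_{m1}`.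
 (Γ3) `m1 ∈ Γ`, `y ∈ C`, `y` not adjacent to `m1`: then `y` is adjacent to `m1^`. (The common
 neighbour of `y` and `m1` is not `y'`; if it is `x ∈ C_{m1}` then `N x = {m1, y}` and `y ∈ N m1` by
 (Γ2).)
 (A) `m1 ≠ m3` in Γ. They have the same class (`h2c`). By `hP` with `y := m1`, there are two
 elements `m5 ≠ m6` of `M` which are not in `D` with the class of `m1`, so `m5, m6 ∉ {m1, m3}`.
   If `m1^ = m3`: then `m3^ = m1`, and every `y ∈ C` is adjacent to `m1` or `m3` by (Γ3). For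
   `i = 5, 6`: `σ m_i ≥ 1`, or `σ m_i = 0` and there is `y_i ∈ C_{m_i}`, whose second neighbour is `m1` or
   `m3`, so `y_i ∈ C2`, and `y_5 ≠ y_6`. So `∑ σ + C2.card ≥ 2`, contradiction.
   If `m1^ ≠ m3`: `x ∈ C_{m1}` (not empty), `N x = {m1, x'}`. `x` is not adjacent to `m3`
   (otherwise `x' = m3`, and (Γ2) gives `m3 = m1^`). By (Γ3) `x` is adjacent to `m3^`; `m3^ ≠ m1`
   (otherwise `m3 ∈ N m1 ∩ M = {m1^}`); so `x' = m3^ ∈ M` and `x ∈ C2`. In the same way an element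
   `x3 ∈ C_{m3}` is in `C2`, and `x3 ≠ x`. So `C2.card ≥ 2`, contradiction.
 (B) `Γ = {m1}`. Then `P = {m1, p}`, `σ p = 1`, `C2 = ∅`, `σ m = 0` for all other `m ∈ M`; the elements
 of `M \ P` are in `D` with class `c0`, there is at least one. Let `m2 = m1^`. If `m5 ∈ M \ P`,
 `m5 ≠ m2`: `C_{m5} ≠ ∅`, and `y ∈ C_{m5}` is adjacent to `m1` or `m2` by (Γ3), so `y ∈ C2`,
 contradiction. So `M \ P = {m2}`, `M = {m1, p, m2}`. By `hP` with `y := m1` at least two elements of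
 `M` are not in `D` with class `cls m1`, so `p` is not. So `p ∉ D` or `grp p ≠ g0` (`h2c`: a third
 class in `g0` is impossible; `cls m1`, `c0 = cls m2`).
   `C_p = ∅`: `y ∈ C_p` is adjacent to `m1` or `m2` by (Γ3), so `y ∈ C2`.
   `p ∉ D`: `σ p = dg p - 0 = 1`, so `N p = {y'}`, contradiction to `hQ`.
   `grp p ≠ g0`: take `x ∈ C_{m1}`, it has a common neighbour with `p`: `m1` (no: `p ∉ N m1 =
   {y', m2} ∪ C_{m1}`) or `x' ∈ {m2} ∪ C_{m1}`: not `m2` (`N m2 = {y', m1} ∪ C_{m2}`, since `σ m2 = 0` and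
   `m1 ∈ N m2 ∩ M`), and not cheap (`hs`). Contradiction.
-/

set_option autoImplicit false

namespace Pool.Agent.Helper38.RE.Spec

open Finset Pool.Agent.Helper38.RE

variable {V : Type*} [Fintype V] [DecidableEq V]

theorem rs_case1 {R : SimpleGraph V} [DecidableRel R.Adj] {U D : Finset V} {ι κ : Type*}
    {cls : V → ι} {grp : V → κ} (S : RS R U D cls grp) {g0 : κ}
    (hg0 : ∀ y ∈ D, dg R y = 2 → grp y = g0) {y0 y2 : V} (hy0 : y0 ∈ D) (hy2 : y2 ∈ D)
    (hd0 : dg R y0 = 2) (hd2 : dg R y2 = 2) (hne : cls y0 ≠ cls y2) :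
    -1 ≤ ∑ v ∈ U, ((dg R v : ℤ) - 1) - 2 * (D.card : ℤ) := by
  sorry

theorem rs_case2 {R : SimpleGraph V} [DecidableRel R.Adj] {U D : Finset V} {ι κ : Type*}
    {cls : V → ι} {grp : V → κ} (S : RS R U D cls grp) {c0 : ι}
    (hc0 : ∀ y ∈ D, dg R y = 2 → cls y = c0) :
    -1 ≤ ∑ v ∈ U, ((dg R v : ℤ) - 1) - 2 * (D.card : ℤ) := by
  sorry

end Pool.Agent.Helper38.RE.Spec
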