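import Pool.Agent.Helper38.RE.Roman

/-! Project RE2 (MP_cc4a3b_co): the extremal graphs for `k = 4` and `k = 5`.

### RE2-K4
`G` = complement of the cycle of length `n` (`i`, `i'` not adjacent in `G` iff `i' = i`,
`i' = i + 1` or `i = i' + 1` mod `n`). `n ≥ 5`: connected (two non adjacent vertices `i, i + 1` have
the common neighbour `i + 3`). Weight of a Roman dominating function `f`: if no value is `2`
then all values are `≥ 1`, weight `≥ n ≥ 5`; if exactly one vertex `v` has value `2` then the two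
non neighbours have value `1`, weight `≥ 4`; with two values `2` it is `≥ 4`. `f = 2` at `x`, `1` at
the two non neighbours, `0` elsewhere has weight `4`. Edges: every vertex has degree `n - 3`.
For k4_upper: every vertex `v` has at least two non neighbours `≠ v` (use the function with value `2`
at `v`, `1` at the non neighbours), so `2 * edges = ∑ degrees ≤ n * (n - 3)`.

### RE2-K5
The complement `H` of `G` has the edges (vertices `0, ..., n - 1`):
`02, 03, 0t (t ≥ 8), 14, 15, 16, 17, 1t (t ≥ 8), 23, 24, 25, 45, 36, 37, 67,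
 t t' for t ≠ t' ≥ 8 with t / 2 = t' / 2`, and, for `n` odd, `(n - 2)(n - 1)`.
Number of edges of `H`: `2 + (n - 8) + 4 + (n - 8) + 7 + (number of edges among t ≥ 8) =
2 n - 3 + ⌈(n - 8) / 2⌉`, so `2 * e(G) = n (n - 1) - 2 e(H) ≥ n ^ 2 - 6 n + 13`. (For the bound it is
enough to bound the `H` degrees from above: `0`: `n - 6`, `1`: `n - 4`, `2, 3`: `4`; `4, 5, 6, 7`: `3`;
`t ≥ 8`: `3`, except `n - 2` for `n` odd: `4`. Sum `≤ (2 n - 10) + 8 + 12 + 3 (n - 8) + 1 = 5 n - 13`.)
Facts: every vertex has `≥ 3` neighbours in `H` (`n ≥ 12`), any two different vertices have a common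
neighbour in `H`: `0` and `1`: `8`; `0, 2`: `3`; `0, 3`: `2`; `0, 4`: `2`; `0, 5`: `2`; `0, 6`: `3`; `0, 7`: `3`;
`0, t`: a partner `t'` of `t`; `1, 2`: `4`; `1, 3`: `6`; `1, 4`: `5`; `1, 5`: `4`; `1, 6`: `7`; `1, 7`: `6`; `1, t`: `t'`;
`2, 3`: `0`; `2, 4`: `5`; `2, 5`: `4`; `2, 6`: `3`; `2, 7`: `3`; `2, t`: `0`; `3, 4`: `2`; `3, 5`: `2`; `3, 6`: `7`; `3, 7`: `6`;
`3, t`: `0`; `4..7` pairwise: `1`; `x, t`: `1`; `t, t'`: `0`.
So the weight of a Roman dominating function `f` of `G` is `≥ 5`: no value `2`: `≥ n`; one value `2`, at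
`v`: the `H` neighbours of `v` have value `≥ 1`: `≥ 2 + 3`; two values `2`, at `u, v`: the common `H`
neighbour has value `≥ 1`: `≥ 4 + 1`; three or more: `≥ 6`.
For a vertex `v` with exactly three `H` neighbours, `f = 2` at `v`, `1` at the `H` neighbours, `0`
elsewhere is Roman dominating of weight `5`. `v = 4, 5, 6, 7` and `v = t` (`8 ≤ t`, `t ≠ n - 2` if `n`
is odd) are such vertices; their closed `H` neighbourhoods cover everything (`0, 1` by `v = 8`, `2` by
`4`, `3` by `6`, `n - 2` by `n - 1`). `G` is connected: `0` is adjacent to `1` and to `4`; `1` to `2`; the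
vertices `2, ..., 7` are adjacent to all `t ≥ 8`; two vertices `t, t'` have the common neighbour `2`.
-/

set_option autoImplicit false

namespace Pool.Agent.Helper38.RE.Spec

open Finset Pool.Agent.Helper38.RE

/-- RE2-K4 (file K4.lean) -/
theorem k4_mem {n : ℕ} (hn : 5 ≤ n) : ∃ G : SimpleGraph (Fin n),
    G.Connected ∧ Excellent G ∧ IsRoman G 4 ∧ n * (n - 3) ≤ 2 * G.edgeSet.ncard := by
  sorry

/-- RE2-K4 (file K4.lean) -/
theorem k4_upper {n : ℕ} (hn : 5 ≤ n) (G : SimpleGraph (Fin n))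
    (hr : ∀ f, IsRDF G f → 4 ≤ ∑ v, f v) : 2 * G.edgeSet.ncard ≤ n * (n - 3) := by
  sorry

/-- RE2-K5 (file K5.lean) -/
theorem k5_mem {n : ℕ} (hn : 12 ≤ n) : ∃ G : SimpleGraph (Fin n),
    G.Connected ∧ Excellent G ∧ IsRoman G 5 ∧ n ^ 2 + 13 ≤ 2 * G.edgeSet.ncard + 6 * n := by
  sorry

end Pool.Agent.Helper38.RE.Spec
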