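import Pool.Agent.Helper38.RE.Basic

/-! Project RE (MP_cc4a3b_co), pieces RE-T1 and RE-Str: statements, with the full paper proof.

Write `L = 2 * j + 3`, `n = Fintype.card V`.

### RE-T1
`acc H (subset_univ W)`: `∑ dg = ∑ v ∉ W, (dg v + (N v ∩ W).card) + ∑ w ∈ W, (N w ∩ W).card`. For
`v ∉ W` the summand is `≥ L` (if `(miss H W v).card ≤ 1` then `(N v ∩ W).card ≥ j + 1` by
`card_inter_notMem` and `dg v ≥ j + 2`). The last sum is `(j + 2) * (j + 1) - g`, where
`g = ∑ w ∈ W, (miss H W w).card ≤ j + 2` (`card_inter_mem`), and it is even (`even_inner`), so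
`g` is even and `g ≤ 2 * ((j + 2) / 2)`. Hence
`∑ dg ≥ L * (n - (j + 2)) + (j + 2) * (j + 1) - 2 * ((j + 2) / 2)`, which is the claim.

### RE-Str
Suppose `¬ Good H j`; then `∑ dg < L * n`. Put `M = 7680 * (j + 2) ^ 2 * L * (j + 1)` or so
(see the constants at the end). `v` is huge if `n ≤ M * dg v`; `Wh` = set of the huge vertices,
`Wh.card ≤ L * M`. `Hv = N v ∩ Wh`. Let `A = 60 * (j + 1)`, `B = 40 * (j + 1) ^ 2`.

(a) Let `v ∉ Wh`, `dg v ≤ L`. `∑ x ∈ N v, (dg x - 1) = ∑ u ≠ v, codeg u v ≥ j * (n - 1)`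
(`sum_codeg`), and the non huge `x ∈ N v` contribute `≤ L * n / M`. So `Hv.card ≥ j`, and if
`Hv.card = j` then `∑ x ∈ Hv, (n - 1 - dg x) ≤ L * n / M`, so `S = Hv` has
`(bad H S).card ≤ L * n / M`, and `ht` applies.

(b) So assume: every `v ∉ Wh` with `dg v ≤ L` has `Hv.card ≥ j + 1`. Then
`e v = dg v + Hv.card - L ≥ 0` for all `v ∉ Wh`. By `acc` with `X = Wh`:
`∑ v ∉ Wh, e v ≤ L * Wh.card ≤ L ^ 2 * M =: C1`. Call `v ∉ Wh` regular if `e v = 0`; then
`dg v = j + 2`, `Hv.card = j + 1`, `N v = Hv ∪ {b v}` with `b v ∉ Wh`. All but `C1` of the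
`v ∉ Wh` are regular.

(c) Fix a regular `y0`, `P0 = H y0` (`P0.card = j + 1`), `b0 = b y0`. Every `u ≠ y0` not
adjacent to `b0` misses at most one element of `P0` (`P2` for `u, y0`). For `p ∈ P0` let `A_p` be
the set of the `u ≠ y0`, `u` not adjacent to `b0`, which miss exactly `p` in `P0`. For `p ∈ P0`:
`bad H (P0.erase p) ⊆ N b0 ∪ ⋃ p' ≠ p, A_p'`. If `A * (bad ..).card + B ≤ n` use `ht`. Otherwise
`(bad ..).card` is `≥ n / (2 * A)`, and there is `p' ≠ p` with `A_p'` of size `≥ n / (4 * A * j)`.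
Apply this to any `p`, giving `p1`, then to `p = p1`, giving `p2 ≠ p1`: `A_p1`, `A_p2` have
size `≥ n / Q`, `Q = 4 * A * (j + 1)`, and `≥ n / (2 * Q)` of the elements are regular.

(d) For a regular `u ∈ A_p`: `H u = P0 \ {p} ∪ {x u}`, `x u ∉ P0` huge. For regular `u ∈ A_p1`,
`u' ∈ A_p2`: the common neighbours of `u, u'` in `P0` are `j - 1`, so `x u = x u'` or
`b u = b u'`. As `b u` is not huge, for fixed `u` all but `n / M` of the `u'` have `x u' = x u`.
So there is `x` with `≥ n / (4 * Q)` elements `u` of `A_p1` and of `A_p2` with `x u = x`. Put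
`W0 = insert x P0`, `W0.card = j + 2`, and for `p ∈ W0` let `Cl p` be the set of the regular `u`
with `H u = W0.erase p`. So `Cl p1`, `Cl p2` have `≥ n / (4 * Q)` elements.

(e) Let `Cl p` have `≥ n / (4 * Q)` elements, `dg v ≤ L`. Then there is `u ∈ Cl p`, `u ≠ v`, with
`b u` not adjacent to `v` (at most `L * n / M` of the `u` have `b u ∈ N v`), so
`(N v ∩ W0.erase p).card ≥ j`, i.e. `v` misses at most one element of `W0.erase p` (if `v ∈ W0`
count suitably).

(f) `S' = W0 \ {p1, p2}`, `S'.card = j`. If `A * (bad H S').card + B ≤ n` use `ht`. Otherwise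
`bad H S'` has `≥ n / (2 * A)` elements; the regular ones among them miss exactly one element of
`W0`, by (e) for `p1` and `p2`, and this is an element of `S'`; so they are in `⋃ p ∈ S', Cl p`.
So there is `p3 ∈ S'` with `Cl p3` of size `≥ n / (4 * A * j) ≥ n / (4 * Q)`.

(g) By (e) with `p1, p2, p3` every `v ∉ W0` has `dg v ≥ L` or misses at most one element of `W0`
(if it misses `q ≠ q'` then `{p1, p2, p3} ⊆ {q, q'}`).

(h) Let `w ∈ W0` miss `w' ≠ w''` in `W0`. For `u ∈ Cl p_i`: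
`N w ∩ N u ⊆ (W0 \ {w, w', w'', p_i}) ∪ ({b u} ∩ N w)` has `≥ j` elements, so
`p_i ∈ {w, w', w''}` and `b u ∈ N w`. Hence `{p1, p2, p3} = {w, w', w''}`, and
`w = p_i` for one `i`. Take `u ∈ Cl w`, `b = b u`, adjacent to `w`, not huge. If `b` is regular,
then by (g) `H b = W0.erase q` for a `q`, `q ≠ w`, and `b b = u`, and `u` is not adjacent to
`w`, so `N w ∩ N b ⊆ W0 \ {w, w', w'', q}` has `< j` elements, contradiction. So `b u` is not
regular for every `u ∈ Cl w`; the sum of the degrees of the non regular vertices outside `Wh` is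
`≤ ∑ (L + e) ≤ (L + 1) * C1`, so `Cl w` has `≤ (L + 1) * C1` elements, contradiction.
So `G[W0]` is a matching: `(miss H W0 w).card ≤ 1` for `w ∈ W0`, and `h1` (piece RE-T1) applies.

Constants: `A = 60 (j+1)`, `B = 40 (j+1)^2`, `Q = 4 A (j+1) = 240 (j+1)^2`,
`M = 8 * Q * L ≤ 3840 (j+2)^3` and `n ≥ 10 ^ 8 * (j + 2) ^ 8` is (more than) enough; if you need
another bound on `n` (any explicit function of `j`), use it and tell me.
-/

set_option autoImplicit false

namespace Pool.Agent.Helper38.RE.Spec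

open Finset Pool.Agent.Helper38.RE

variable {V : Type*} [Fintype V] [DecidableEq V]

/-- RE-T1 (file T1.lean) -/
theorem t1 (H : SimpleGraph V) [DecidableRel H.Adj] {j : ℕ} (P1 : ∀ v, j + 2 ≤ dg H v)
    {W : Finset V} (hW : W.card = j + 2) (hm : ∀ w ∈ W, (miss H W w).card ≤ 1)
    (h : ∀ v, v ∉ W → 2 * j + 3 ≤ dg H v ∨ (miss H W v).card ≤ 1) : Good H j := by
  sorry

/-- RE-Str (file Str.lean) -/
theorem str (H : SimpleGraph V) [DecidableRel H.Adj] {j : ℕ} (hj : 1 ≤ j)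
    (P1 : ∀ v, j + 2 ≤ dg H v) (P2 : ∀ u v, u ≠ v → j ≤ (N H u ∩ N H v).card)
    (h1 : ∀ W : Finset V, W.card = j + 2 → (∀ w ∈ W, (miss H W w).card ≤ 1) →
      (∀ v, v ∉ W → 2 * j + 3 ≤ dg H v ∨ (miss H W v).card ≤ 1) → Good H j)
    (ht : ∀ S : Finset V, S.card = j →
      60 * (j + 1) * (bad H S).card + 40 * (j + 1) ^ 2 ≤ Fintype.card V → Good H j)
    (hn : 10 ^ 8 * (j + 2) ^ 8 ≤ Fintype.card V) : Good H j := by
  sorry

end Pool.Agent.Helper38.RE.Spec
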